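import Pool.Agent.H7.NG.Stmts

/-!
# Row XCO of the board `ng`: the number of cliques for `r = p + 1`
-/

set_option autoImplicit false

open Finset

namespace Pool.NG7

open Pool.Agent.H23.KT Pool.Agent.H46.KW Pool.KQ Pool.GT7 Pool.GU7 Pool.HZ7 Pool.IA7

private theorem xco_even {n : ℕ} (f : Fin n → Fin n → ℕ) (hf : ∀ i k, f i k = f k i) :
    Even (∑ i, ∑ k ∈ univ.erase i, f i k) := by
  have h1 : ∀ i, ∑ k ∈ univ.erase i, f i k =
      ∑ k, (if i < k then f i k else 0) + ∑ k, (if k < i then f i k else 0) := by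
    intro i
    rw [← Finset.sum_add_distrib]
    have h2 : (univ.erase i : Finset (Fin n)) = univ.filter (fun k => k ≠ i) := by
      ext k
      simp
    rw [h2, Finset.sum_filter]
    apply Finset.sum_congr rfl
    intro k _
    rcases lt_trichotomy i k with h | h | h
    · rw [if_pos h.ne', if_pos h, if_neg (not_lt.mpr h.le), add_zero]
    · subst h
      simp
    · rw [if_pos h.ne, if_neg (not_lt.mpr h.le), if_pos h, zero_add]
  have h3 : ∑ i, ∑ k, (if k < i then f i k else 0) = ∑ i, ∑ k, (if i < k then f i k else 0) := by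
    rw [Finset.sum_comm]
    apply Finset.sum_congr rfl
    intro i _
    apply Finset.sum_congr rfl
    intro k _
    rw [hf k i]
  refine ⟨∑ i, ∑ k, (if i < k then f i k else 0), ?_⟩
  rw [Finset.sum_congr rfl (fun i _ => h1 i), Finset.sum_add_distrib, h3]

private theorem xco_cross {V : Type} [DecidableEq V] (G : SimpleGraph V) (X Y : Finset V) :
    ∑ u ∈ X, (non G Y u).card = ∑ u ∈ Y, (non G X u).card := by
  classical
  have h1 : ∀ (A B : Finset V), ∑ u ∈ A, (non G B u).card =
      ∑ u ∈ A, ∑ w ∈ B, (if ¬ G.Adj u w then 1 else 0) := by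
    intro A B
    apply Finset.sum_congr rfl
    intro u _
    unfold non
    rw [Finset.card_filter]
  rw [h1, h1, Finset.sum_comm]
  apply Finset.sum_congr rfl
  intro u _
  apply Finset.sum_congr rfl
  intro w _
  simp only [G.adj_comm]

private theorem xco_nb_non {V : Type} (G : SimpleGraph V) (X : Finset V) (u : V) :
    (nb G X u).card + (non G X u).card = X.card := by
  classical
  unfold nb non
  exact Finset.card_filter_add_card_filter_not _

/-- Adding an independent set. -/
private theorem xco_add {V : Type} [DecidableEq V] (G : SimpleGraph V) (L : Finset V) (j : ℕ)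
    (X : Finset V) : (∀ u ∈ X, ∀ w ∈ X, ¬ G.Adj u w) → Disjoint L X →
    kc G (L ∪ X) (j + 1) = kc G L (j + 1) + ∑ x ∈ X, kc G (nb G L x) j := by
  induction X using Finset.induction_on with
  | empty =>
    intro _ _
    rw [union_empty, sum_empty, add_zero]
  | insert x X hx ih =>
    intro hI hD
    have hxL : x ∉ L := fun h => (Finset.disjoint_left.mp hD h) (mem_insert_self x X)
    have h1 : x ∈ L ∪ insert x X := mem_union_right _ (mem_insert_self x X)
    rw [kc_succ G h1 j]
    have h2 : (L ∪ insert x X).erase x = L ∪ X := by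
      rw [union_insert, erase_insert]
      rw [mem_union]
      exact fun h => h.elim hxL hx
    have h3 : nb G (L ∪ insert x X) x = nb G L x := by
      ext y
      rw [mem_nb, mem_nb, mem_union]
      constructor
      · rintro ⟨h | h, hadj⟩
        · exact ⟨h, hadj⟩
        · exact absurd hadj (hI x (mem_insert_self x X) y h)
      · rintro ⟨h, hadj⟩
        exact ⟨Or.inl h, hadj⟩
    rw [h2, h3, ih (fun u hu w hw => hI u (mem_insert_of_mem hu) w (mem_insert_of_mem hw))
      (Finset.disjoint_of_subset_right (subset_insert x X) hD), sum_insert hx]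
    ring

/-- A complete join with an independent set. -/
private theorem xco_join {V : Type} [DecidableEq V] (G : SimpleGraph V) (L X : Finset V) (j : ℕ)
    (hI : ∀ u ∈ X, ∀ w ∈ X, ¬ G.Adj u w) (hD : Disjoint L X)
    (hA : ∀ x ∈ X, ∀ y ∈ L, G.Adj x y) :
    kc G (L ∪ X) (j + 1) = kc G L (j + 1) + X.card * kc G L j := by
  rw [xco_add G L j X hI hD]
  congr 1
  rw [← smul_eq_mul, ← sum_const]
  apply sum_congr rfl
  intro x hx
  have h : nb G L x = L := by
    ext y
    rw [mem_nb]
    exact ⟨fun h => h.1, fun h => ⟨h, hA x hx y h⟩⟩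
  rw [h]

/-- The cliques of an independent set. -/
private theorem xco_ind {V : Type} [DecidableEq V] (G : SimpleGraph V) (X : Finset V)
    (hI : ∀ u ∈ X, ∀ w ∈ X, ¬ G.Adj u w) (j : ℕ) :
    kc G X (j + 1) = if j = 0 then X.card else 0 := by
  have h := xco_add G ∅ j X hI (disjoint_empty_left X)
  have h0 : kc G (∅ : Finset V) (j + 1) = 0 := kc_eq_zero G (by rw [card_empty]; omega)
  rw [empty_union, h0, zero_add] at h
  rw [h]
  have h2 : ∀ x ∈ X, kc G (nb G (∅ : Finset V) x) j = if j = 0 then 1 else 0 := by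
    intro x _
    have h3 : nb G (∅ : Finset V) x = ∅ := by
      ext y
      rw [mem_nb]
      simp
    rw [h3]
    split_ifs with h0
    · subst h0
      exact kc_zero G ∅
    · exact kc_eq_zero G (by rw [card_empty]; omega)
  rw [sum_congr rfl h2, sum_const, smul_eq_mul]
  split_ifs <;> simp

/-- The two parts with the matching removed. -/
private theorem xco_pair {V : Type} [DecidableEq V] (G : SimpleGraph V) (K L : Finset V) (a : ℕ)
    (hK : K.card = a) (hL : L.card = a)
    (iK : ∀ u ∈ K, ∀ w ∈ K, ¬ G.Adj u w) (iL : ∀ u ∈ L, ∀ w ∈ L, ¬ G.Adj u w)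
    (hD : Disjoint K L) (hn : ∀ x ∈ L, (nb G K x).card = a - 1) :
    kc G (K ∪ L) 1 = 2 * a ∧ kc G (K ∪ L) 2 = a * (a - 1) ∧ ∀ j, kc G (K ∪ L) (j + 3) = 0 := by
  have iN : ∀ x, ∀ u ∈ nb G K x, ∀ w ∈ nb G K x, ¬ G.Adj u w := fun x u hu w hw =>
    iK u (nb_subset G K x hu) w (nb_subset G K x hw)
  refine ⟨?_, ?_, ?_⟩
  · rw [xco_add G K 0 L iL hD, xco_ind G K iK 0, if_pos rfl, hK]
    have : ∀ x ∈ L, kc G (nb G K x) 0 = 1 := fun x _ => kc_zero G _
    rw [sum_congr rfl this, sum_const, smul_eq_mul, hL]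
    ring
  · rw [xco_add G K 1 L iL hD, xco_ind G K iK 1, if_neg one_ne_zero, zero_add]
    have : ∀ x ∈ L, kc G (nb G K x) 1 = a - 1 := by
      intro x hx
      rw [xco_ind G (nb G K x) (iN x) 0, if_pos rfl, hn x hx]
    rw [sum_congr rfl this, sum_const, smul_eq_mul, hL]
  · intro j
    rw [xco_add G K (j + 2) L iL hD, xco_ind G K iK (j + 2), if_neg (by omega), zero_add]
    apply sum_eq_zero
    intro x _
    rw [xco_ind G (nb G K x) (iN x) (j + 1), if_neg (by omega)]

/-- The number of cliques of the model. -/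
private def xcoF (a m : ℕ) : ℕ → ℕ
  | 0 => 1
  | 1 => m * (a + 1) + 2 * a
  | j + 2 => m.choose (j + 2) * (a + 1) ^ (j + 2) + 2 * a * (m.choose (j + 1) * (a + 1) ^ (j + 1)) +
      a * (a - 1) * (m.choose j * (a + 1) ^ j)

private theorem xcoF_succ (a m j : ℕ) :
    xcoF a (m + 1) (j + 1) = xcoF a m (j + 1) + (a + 1) * xcoF a m j := by
  match j with
  | 0 =>
    show (m + 1) * (a + 1) + 2 * a = m * (a + 1) + 2 * a + (a + 1) * 1
    ring
  | 1 =>
    show (m + 1).choose 2 * (a + 1) ^ 2 + 2 * a * ((m + 1).choose 1 * (a + 1) ^ 1) +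
        a * (a - 1) * ((m + 1).choose 0 * (a + 1) ^ 0) =
      m.choose 2 * (a + 1) ^ 2 + 2 * a * (m.choose 1 * (a + 1) ^ 1) +
        a * (a - 1) * (m.choose 0 * (a + 1) ^ 0) + (a + 1) * (m * (a + 1) + 2 * a)
    have e : (m + 1).choose 2 = m.choose 1 + m.choose 2 := Nat.choose_succ_succ m 1
    rw [e, Nat.choose_one_right, Nat.choose_one_right, Nat.choose_zero_right,
      Nat.choose_zero_right]
    ring
  | i + 2 =>
    show (m + 1).choose (i + 3) * (a + 1) ^ (i + 3) +
        2 * a * ((m + 1).choose (i + 2) * (a + 1) ^ (i + 2)) +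
        a * (a - 1) * ((m + 1).choose (i + 1) * (a + 1) ^ (i + 1)) =
      m.choose (i + 3) * (a + 1) ^ (i + 3) + 2 * a * (m.choose (i + 2) * (a + 1) ^ (i + 2)) +
        a * (a - 1) * (m.choose (i + 1) * (a + 1) ^ (i + 1)) +
        (a + 1) * (m.choose (i + 2) * (a + 1) ^ (i + 2) +
          2 * a * (m.choose (i + 1) * (a + 1) ^ (i + 1)) +
          a * (a - 1) * (m.choose i * (a + 1) ^ i))
    have e1 : (m + 1).choose (i + 3) = m.choose (i + 2) + m.choose (i + 3) :=
      Nat.choose_succ_succ m (i + 2)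
    have e2 : (m + 1).choose (i + 2) = m.choose (i + 1) + m.choose (i + 2) :=
      Nat.choose_succ_succ m (i + 1)
    have e3 : (m + 1).choose (i + 1) = m.choose i + m.choose (i + 1) :=
      Nat.choose_succ_succ m i
    rw [e1, e2, e3]
    generalize a - 1 = c
    ring

/-- The number of cliques of the two parts and some others. -/
private theorem xco_count {V : Type} [DecidableEq V] (G : SimpleGraph V) {b : ℕ}
    (Q : Fin b → Finset V) (a : ℕ) (k l : Fin b) (hkl : k ≠ l) (hP : Par G Q)
    (hk : (Q k).card = a) (hl : (Q l).card = a) (hn : ∀ x ∈ Q l, (nb G (Q k) x).card = a - 1)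
    (hc : ∀ i, i ≠ k → i ≠ l → (Q i).card = a + 1)
    (hA : ∀ i, i ≠ k → i ≠ l → ∀ x ∈ Q i, ∀ j, j ≠ i → ∀ y ∈ Q j, G.Adj x y)
    (J : Finset (Fin b)) : k ∉ J → l ∉ J →
    ∀ j, kc G ((Q k ∪ Q l) ∪ J.biUnion Q) j = xcoF a J.card j := by
  obtain ⟨p1, p2, p3⟩ := xco_pair G (Q k) (Q l) a hk hl (hP.ind k) (hP.ind l) (hP.dis k l hkl) hn
  induction J using Finset.induction_on with
  | empty =>
    intro _ _ j
    rw [biUnion_empty, union_empty, card_empty]
    match j with
    | 0 => exact kc_zero G _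
    | 1 =>
      rw [p1]
      show 2 * a = 0 * (a + 1) + 2 * a
      ring
    | 2 =>
      rw [p2]
      show a * (a - 1) = Nat.choose 0 2 * (a + 1) ^ 2 + 2 * a * (Nat.choose 0 1 * (a + 1) ^ 1) +
        a * (a - 1) * (Nat.choose 0 0 * (a + 1) ^ 0)
      simp
    | j + 3 =>
      rw [p3]
      show 0 = Nat.choose 0 (j + 3) * (a + 1) ^ (j + 3) +
        2 * a * (Nat.choose 0 (j + 2) * (a + 1) ^ (j + 2)) +
        a * (a - 1) * (Nat.choose 0 (j + 1) * (a + 1) ^ (j + 1))
      simp
  | insert i J hi ih =>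
    intro hkJ hlJ j
    have hik : i ≠ k := fun h => hkJ (h ▸ mem_insert_self i J)
    have hil : i ≠ l := fun h => hlJ (h ▸ mem_insert_self i J)
    have ih' := ih (fun h => hkJ (mem_insert_of_mem h)) (fun h => hlJ (mem_insert_of_mem h))
    match j with
    | 0 => exact kc_zero G _
    | j + 1 =>
      have hW : (Q k ∪ Q l) ∪ (insert i J).biUnion Q = ((Q k ∪ Q l) ∪ J.biUnion Q) ∪ Q i := by
        rw [biUnion_insert, union_comm (Q i), ← union_assoc]
      have hmem : ∀ y ∈ (Q k ∪ Q l) ∪ J.biUnion Q, ∃ j, j ≠ i ∧ y ∈ Q j := by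
        intro y hy
        rw [mem_union, mem_union, mem_biUnion] at hy
        rcases hy with (h | h) | ⟨j, hj, h⟩
        · exact ⟨k, hik.symm, h⟩
        · exact ⟨l, hil.symm, h⟩
        · exact ⟨j, fun e => hi (e ▸ hj), h⟩
      rw [hW, xco_join G _ (Q i) j (hP.ind i) ?_ ?_, ih', ih', hc i hik hil,
        card_insert_of_notMem hi, xcoF_succ]
      · rw [Finset.disjoint_left]
        intro y hy hyi
        obtain ⟨j, hj, hyj⟩ := hmem y hy
        exact Finset.disjoint_left.mp (hP.dis j i hj) hyj hyi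
      · intro x hx y hy
        obtain ⟨j, hj, hyj⟩ := hmem y hy
        exact hA i hik hil x hx j hj y hyj

theorem XCO_thm : XCOStmt := by
  intro p w a hw hwp ha V _ _ G Q σ δ hP hcard hσ hH hδ
  -- sums over the union
  have hun : ∀ f : V → ℕ, ∑ u ∈ un Q, f u = ∑ j, ∑ u ∈ Q j, f u := by
    intro f
    unfold un
    exact Finset.sum_biUnion (fun j _ k _ hjk => hP.dis j k hjk)
  -- the double counts
  have hm : ∀ j, ∑ i ∈ univ.erase j, ∑ u ∈ Q j, (non G (Q i) u).card =
      (Q j).card * σ j + ∑ u ∈ Q j, δ u := by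
    intro j
    rw [Finset.sum_comm, Finset.sum_congr rfl (hH j), Finset.sum_add_distrib, Finset.sum_const,
      smul_eq_mul]
  -- a part with positive deficiency
  obtain ⟨k, hk⟩ : ∃ k, σ k ≠ 0 := by
    by_contra h
    push Not at h
    rw [Finset.sum_eq_zero (fun j _ => h j)] at hσ
    omega
  have hs1 : σ k + ∑ j ∈ univ.erase k, σ j = 2 := by
    rw [Finset.add_sum_erase univ σ (mem_univ k)]
    exact hσ
  by_cases hk2 : 2 ≤ σ k
  · exfalso
    have hs0 : ∑ j ∈ univ.erase k, σ j = 0 := by omega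
    have hσ0 : ∀ j ∈ univ.erase k, σ j = 0 := fun j hj =>
      (Finset.sum_eq_zero_iff.mp hs0) j hj
    have h1 : ∑ i ∈ univ.erase k, ∑ u ∈ Q k, (non G (Q i) u).card ≤
        ∑ i ∈ univ.erase k, ∑ u ∈ Q i, δ u := by
      apply Finset.sum_le_sum
      intro i hi
      rw [xco_cross G (Q k) (Q i)]
      apply Finset.sum_le_sum
      intro u hu
      have h2 := hH i u hu
      rw [hσ0 i hi, zero_add] at h2
      rw [← h2]
      exact Finset.single_le_sum (f := fun k => (non G (Q k) u).card) (fun _ _ => Nat.zero_le _)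
        (mem_erase.mpr ⟨(Finset.ne_of_mem_erase hi).symm, mem_univ k⟩)
    have h3 : ∑ i ∈ univ.erase k, ∑ u ∈ Q i, δ u ≤ ∑ u ∈ un Q, δ u := by
      rw [hun]
      exact Finset.sum_le_sum_of_subset (Finset.erase_subset _ _)
    rw [hm k] at h1
    have h4 := hcard k
    have h5 : 2 ≤ (Q k).card := by omega
    have h6 : 2 * 2 ≤ (Q k).card * σ k := Nat.mul_le_mul h5 hk2
    omega
  · have hk1 : σ k = 1 := by omega
    have hs2 : ∑ j ∈ univ.erase k, σ j = 1 := by omega
    obtain ⟨l, hlm, hl⟩ : ∃ l ∈ univ.erase k, σ l ≠ 0 := by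
      by_contra h
      push Not at h
      rw [Finset.sum_eq_zero h] at hs2
      omega
    have hlk : l ≠ k := Finset.ne_of_mem_erase hlm
    have hs3 : σ l + ∑ j ∈ (univ.erase k).erase l, σ j = 1 := by
      rw [Finset.add_sum_erase (univ.erase k) σ hlm]
      exact hs2
    have hl1 : σ l = 1 := by omega
    have hs4 : ∑ j ∈ (univ.erase k).erase l, σ j = 0 := by omega
    have hσ0 : ∀ j, j ≠ k → j ≠ l → σ j = 0 := fun j h1 h2 =>
      (Finset.sum_eq_zero_iff.mp hs4) j (mem_erase.mpr ⟨h2, mem_erase.mpr ⟨h1, mem_univ j⟩⟩)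
    have hck : (Q k).card = a := by
      have := hcard k
      omega
    have hcl : (Q l).card = a := by
      have := hcard l
      omega
    -- parity
    have hE : Even (∑ j, ∑ i ∈ univ.erase j, ∑ u ∈ Q j, (non G (Q i) u).card) :=
      xco_even (fun j i => ∑ u ∈ Q j, (non G (Q i) u).card) (fun j i => xco_cross G (Q j) (Q i))
    have hT : ∑ j, ∑ i ∈ univ.erase j, ∑ u ∈ Q j, (non G (Q i) u).card =
        2 * a + ∑ u ∈ un Q, δ u := by
      rw [Finset.sum_congr rfl (fun j _ => hm j), Finset.sum_add_distrib, hun]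
      congr 1
      rw [← Finset.add_sum_erase univ (fun j => (Q j).card * σ j) (mem_univ k),
        ← Finset.add_sum_erase (univ.erase k) (fun j => (Q j).card * σ j) hlm]
      have h0 : ∑ j ∈ (univ.erase k).erase l, (Q j).card * σ j = 0 := by
        apply Finset.sum_eq_zero
        intro j hj
        rw [hσ0 j (Finset.ne_of_mem_erase (Finset.mem_of_mem_erase hj))
          (Finset.ne_of_mem_erase hj), mul_zero]
      rw [h0]
      show (Q k).card * σ k + ((Q l).card * σ l + 0) = 2 * a
      rw [hck, hcl, hk1, hl1]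
      ring
    rw [hT] at hE
    have hD : ∑ u ∈ un Q, δ u = 0 := by
      obtain ⟨c, hc⟩ := hE
      omega
    have hδ0 : ∀ j, ∀ u ∈ Q j, δ u = 0 := fun j u hu =>
      (Finset.sum_eq_zero_iff.mp hD) u (mem_biUnion.mpr ⟨j, mem_univ j, hu⟩)
    -- adjacency
    have hA : ∀ i, i ≠ k → i ≠ l → ∀ x ∈ Q i, ∀ j, j ≠ i → ∀ y ∈ Q j, G.Adj x y := by
      intro i hik hil x hx j hji y hy
      by_contra hadj
      have h1 := hH i x hx
      rw [hσ0 i hik hil, hδ0 i x hx] at h1
      have h2 := (Finset.sum_eq_zero_iff.mp h1) j (mem_erase.mpr ⟨hji, mem_univ j⟩)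
      have h3 : y ∈ non G (Q j) x := by
        classical
        unfold non
        exact mem_filter.mpr ⟨hy, hadj⟩
      rw [Finset.card_eq_zero] at h2
      rw [h2] at h3
      exact Finset.notMem_empty y h3
    have hn : ∀ x ∈ Q l, (nb G (Q k) x).card = a - 1 := by
      intro x hx
      have h1 := hH l x hx
      rw [hl1, hδ0 l x hx, ← Finset.add_sum_erase (univ.erase l)
        (fun k => (non G (Q k) x).card) (mem_erase.mpr ⟨hlk.symm, mem_univ k⟩)] at h1
      have h2 : ∑ j ∈ (univ.erase l).erase k, (non G (Q j) x).card = 0 := by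
        apply Finset.sum_eq_zero
        intro j hj
        have hjk := Finset.ne_of_mem_erase hj
        have hjl := Finset.ne_of_mem_erase (Finset.mem_of_mem_erase hj)
        rw [Finset.card_eq_zero]
        classical
        unfold non
        rw [Finset.filter_eq_empty_iff]
        intro y hy hadj
        exact hadj (hA j hjk hjl y hy l hjl.symm x hx).symm
      have h3 := xco_nb_non G (Q k) x
      rw [hck] at h3
      omega
    have hcnt := xco_count G Q a k l hlk.symm hP hck hcl hn
      (fun i hik hil => by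
        have h1 := hcard i
        rw [hσ0 i hik hil] at h1
        omega) hA ((univ.erase k).erase l)
      (fun h => (Finset.ne_of_mem_erase (Finset.mem_of_mem_erase h)) rfl)
      (fun h => (Finset.ne_of_mem_erase h) rfl) (w + 3)
    have hU : (Q k ∪ Q l) ∪ ((univ.erase k).erase l).biUnion Q = un Q := by
      ext y
      unfold un
      simp only [mem_union, mem_biUnion, mem_erase, mem_univ, true_and, and_true]
      constructor
      · rintro ((h | h) | ⟨j, _, h⟩)
        · exact ⟨k, h⟩
        · exact ⟨l, h⟩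
        · exact ⟨j, h⟩
      · rintro ⟨j, h⟩
        by_cases hjk : j = k
        · subst hjk
          exact Or.inl (Or.inl h)
        · by_cases hjl : j = l
          · subst hjl
            exact Or.inl (Or.inr h)
          · exact Or.inr ⟨j, ⟨hjl, hjk⟩, h⟩
    have hJ : ((univ.erase k).erase l : Finset (Fin (p + 4))).card = p + 2 := by
      rw [Finset.card_erase_of_mem hlm, Finset.card_erase_of_mem (mem_univ k), Finset.card_univ,
        Fintype.card_fin]
      omega
    rw [hU, hJ] at hcnt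
    exact hcnt

end Pool.NG7
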